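import Pool.Agent.Helper89.Slab.Defs

/-!
The volume of a slab of the cube (module S7 of the project SLAB, MP_66ebcc_gt).
-/

set_option autoImplicit false

namespace Slab

open MeasureTheory Set

namespace Vol

/-- the part of the cube above the level `s` -/
def K (n : ℕ) (a : Fin n → ℝ) (s : ℝ) : Set (Fin n → ℝ) :=
  {x | (∀ i, |x i| ≤ 1) ∧ s < ∑ i, a i * x i}

/-- the cube -/
def C (n : ℕ) : Set (Fin n → ℝ) := {x | ∀ i, |x i| ≤ 1}

theorem C_eq (n : ℕ) : C n = Icc (fun _ => -1) (fun _ => 1) := by
  ext x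
  simp only [C, Set.mem_ofPred_eq, mem_Icc, Pi.le_def, abs_le]
  exact forall_and

theorem C_vol (n : ℕ) : volume (C n) = ENNReal.ofReal (2 ^ n) := by
  rw [C_eq, Real.volume_Icc_pi, ← ENNReal.ofReal_prod_of_nonneg]
  · norm_num
  · intro i _
    norm_num

theorem C_meas (n : ℕ) : MeasurableSet (C n) := by
  rw [C_eq]
  exact measurableSet_Icc

theorem K_meas (n : ℕ) (a : Fin n → ℝ) (s : ℝ) : MeasurableSet (K n a s) := by
  have h : K n a s = C n ∩ {x | s < ∑ i, a i * x i} := rfl
  rw [h]
  exact (C_meas n).inter (measurableSet_lt measurable_const (by fun_prop))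

theorem K_lt_top (n : ℕ) (a : Fin n → ℝ) (s : ℝ) : volume (K n a s) < ⊤ := by
  refine lt_of_le_of_lt (measure_mono (?_ : K n a s ⊆ C n)) ?_
  · intro x hx
    exact hx.1
  · rw [C_vol]
    exact ENNReal.ofReal_lt_top

theorem K_slice (n : ℕ) (a : Fin (n + 1) → ℝ) (s : ℝ) :
    volume (K (n + 1) a s) =
      ∫⁻ u in Icc (-1 : ℝ) 1, volume (K n (fun i => a i.succ) (s - a 0 * u)) := by
  have e := volume_preserving_piFinSuccAbove (fun _ : Fin (n + 1) => ℝ) 0
  set S : Set (ℝ × (Fin n → ℝ)) :=
    {p | |p.1| ≤ 1 ∧ (∀ i, |p.2 i| ≤ 1) ∧ s < a 0 * p.1 + ∑ i : Fin n, a i.succ * p.2 i} with hS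
  have hSm : MeasurableSet S := by
    have h1 : S = ({p | |p.1| ≤ 1} ∩ {p | p.2 ∈ C n}) ∩
        {p | s < a 0 * p.1 + ∑ i : Fin n, a i.succ * p.2 i} := by
      ext p
      simp only [hS, C, Set.mem_ofPred_eq, mem_inter_iff]
      tauto
    rw [h1]
    refine ((measurableSet_le (by fun_prop) measurable_const).inter
      (measurable_snd (C_meas n))).inter (measurableSet_lt measurable_const (by fun_prop))
  have h1 : K (n + 1) a s = MeasurableEquiv.piFinSuccAbove (fun _ : Fin (n + 1) => ℝ) 0 ⁻¹' S := by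
    ext x
    simp only [K, hS, mem_preimage, Set.mem_ofPred_eq, Fin.forall_fin_succ, Fin.sum_univ_succ]
    simp [MeasurableEquiv.piFinSuccAbove, Fin.insertNthEquiv, Fin.tail, and_assoc]
  rw [h1, e.measure_preimage hSm.nullMeasurableSet, Measure.volume_eq_prod,
    Measure.prod_apply hSm, ← lintegral_indicator measurableSet_Icc]
  congr 1
  funext u
  by_cases hu : u ∈ Icc (-1 : ℝ) 1
  · rw [indicator_of_mem hu]
    congr 1
    ext y
    simp only [hS, K, mem_preimage, Set.mem_ofPred_eq, abs_le.mpr hu, true_and]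
    constructor
    · rintro ⟨h2, h3⟩
      exact ⟨h2, by linarith⟩
    · rintro ⟨h2, h3⟩
      exact ⟨h2, by linarith⟩
  · rw [indicator_of_notMem hu]
    have h2 : Prod.mk u ⁻¹' S = ∅ := by
      ext y
      simp only [hS, mem_preimage, Set.mem_ofPred_eq, mem_empty_iff_false, iff_false]
      intro h3
      exact hu (abs_le.mp h3.1)
    rw [h2, measure_empty]

theorem K_measurable (n : ℕ) (a : Fin n → ℝ) (s c : ℝ) :
    Measurable fun u : ℝ => volume (K n a (s - c * u)) := by
  set S : Set (ℝ × (Fin n → ℝ)) :=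
    {p | (∀ i, |p.2 i| ≤ 1) ∧ s - c * p.1 < ∑ i : Fin n, a i * p.2 i} with hS
  have hSm : MeasurableSet S := by
    have h1 : S = {p | p.2 ∈ C n} ∩ {p | s - c * p.1 < ∑ i : Fin n, a i * p.2 i} := rfl
    rw [h1]
    exact (measurable_snd (C_meas n)).inter (measurableSet_lt (by fun_prop) (by fun_prop))
  exact measurable_measure_prodMk_left hSm

theorem K_eq (n : ℕ) : ∀ (a : Fin n → ℝ) (s : ℝ),
    (volume (K n a s)).toReal = AL (List.ofFn a) H s := by
  induction n with
  | zero =>
    intro a s
    rw [List.ofFn_zero, AL_nil, H]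
    by_cases hs : s < 0
    · rw [if_pos hs]
      have h1 : K 0 a s = C 0 := by
        ext x
        simp only [K, C, Set.mem_ofPred_eq, IsEmpty.forall_iff, true_and, iff_true]
        simpa using hs
      rw [h1, C_vol]
      simp
    · rw [if_neg hs]
      have h1 : K 0 a s = ∅ := by
        ext x
        simp only [K, Set.mem_ofPred_eq, IsEmpty.forall_iff, true_and, mem_empty_iff_false,
          iff_false]
        simpa using hs
      rw [h1, measure_empty, ENNReal.toReal_zero]
  | succ n ih =>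
    intro a s
    rw [List.ofFn_succ, AL_cons, A, K_slice,
      intervalIntegral.integral_of_le (by norm_num), ← integral_Icc_eq_integral_Ioc,
      ← integral_toReal (K_measurable n _ s (a 0)).aemeasurable
        (Filter.Eventually.of_forall fun u => K_lt_top n _ _)]
    congr 1
    funext u
    exact ih _ _

end Vol

open Vol in
theorem volume_slab (n : ℕ) (a : Fin n → ℝ) (t : ℝ) (ht : 0 ≤ t) :
    volume {x : Fin n → ℝ | (∀ i, |x i| ≤ 1) ∧ |∑ i, a i * x i| ≤ t} =
      ENNReal.ofReal (2 ^ n - 2 * AL (List.ofFn a) H t) := by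
  set S : Set (Fin n → ℝ) := {x | (∀ i, |x i| ≤ 1) ∧ |∑ i, a i * x i| ≤ t} with hS
  set V : Set (Fin n → ℝ) := {x | (∀ i, |x i| ≤ 1) ∧ ∑ i, a i * x i < -t} with hV
  have hVK : volume V = volume (K n a t) := by
    have h1 : V = Neg.neg ⁻¹' (K n a t) := by
      ext x
      simp only [hV, K, mem_preimage, Set.mem_ofPred_eq, Pi.neg_apply, abs_neg, mul_neg,
        Finset.sum_neg_distrib]
      constructor
      · rintro ⟨h2, h3⟩
        exact ⟨h2, by linarith⟩
      · rintro ⟨h2, h3⟩
        exact ⟨h2, by linarith⟩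
    rw [h1]
    exact (Measure.measurePreserving_neg (volume : Measure (Fin n → ℝ))).measure_preimage
      (K_meas n a t).nullMeasurableSet
  have hVm : MeasurableSet V := by
    have h : V = C n ∩ {x | ∑ i, a i * x i < -t} := rfl
    rw [h]
    exact (C_meas n).inter (measurableSet_lt (by fun_prop) measurable_const)
  have hC : C n = S ∪ (K n a t ∪ V) := by
    ext x
    simp only [C, hS, hV, K, mem_union, Set.mem_ofPred_eq, abs_le]
    constructor
    · intro h1
      by_cases h2 : t < ∑ i, a i * x i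
      · exact Or.inr (Or.inl ⟨h1, h2⟩)
      · by_cases h3 : ∑ i, a i * x i < -t
        · exact Or.inr (Or.inr ⟨h1, h3⟩)
        · exact Or.inl ⟨h1, by linarith, by linarith⟩
    · rintro (h1 | h1 | h1)
      · exact h1.1
      · exact h1.1
      · exact h1.1
  have hd1 : Disjoint (K n a t) V := by
    rw [Set.disjoint_left]
    intro x h1 h2
    have h3 := h1.2
    have h4 := h2.2
    linarith
  have hd2 : Disjoint S (K n a t ∪ V) := by
    rw [Set.disjoint_left]
    intro x h1 h2
    have h3 := abs_le.mp h1.2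
    rcases h2 with h2 | h2
    · have h4 := h2.2
      linarith
    · have h4 := h2.2
      linarith
  have hvol : ENNReal.ofReal (2 ^ n) = volume S + (volume (K n a t) + volume (K n a t)) := by
    rw [← C_vol, hC, measure_union hd2 ((K_meas n a t).union hVm), measure_union hd1 hVm, hVK]
  have hK := K_lt_top n a t
  have hSt : volume S ≠ ⊤ := by
    intro h
    rw [h, top_add] at hvol
    exact ENNReal.ofReal_ne_top hvol
  have h1 := congrArg ENNReal.toReal hvol
  rw [ENNReal.toReal_ofReal (by positivity), ENNReal.toReal_add hSt (by simp [hK.ne]),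
    ENNReal.toReal_add hK.ne hK.ne, K_eq] at h1
  rw [← ENNReal.ofReal_toReal hSt]
  congr 1
  linarith

end Slab
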